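import Mathlib
import Pool.Agent.Helper907.LocB

/-!
Every local formation whose `F`-subnormal subgroups form a sublattice of the subgroup lattice in
every finite group is closed under subgroups.
-/

set_option autoImplicit false

namespace Pool.Agent.Results.MP_9bfc50_al.SubgroupClosed

/-- A class of groups. -/
abbrev GroupClass := (G : Type) → [Group G] → Prop

/-- Formations: nonempty classes of finite groups closed under isomorphic copies, quotients and
subdirect products. -/
structure IsFormation (C : GroupClass) : Prop where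
  finite : ∀ (G : Type) [Group G], C G → Finite G
  nonempty : ∃ (G : Type) (_ : Group G), C G
  iso : ∀ (G H : Type) [Group G] [Group H], C G → Nonempty (G ≃* H) → C H
  quotient : ∀ (G : Type) [Group G] (N : Subgroup G) [N.Normal], C G → C (G ⧸ N)
  subdirect : ∀ (G : Type) [Group G] [Finite G] (N₁ N₂ : Subgroup G) [N₁.Normal] [N₂.Normal],
    N₁ ⊓ N₂ = ⊥ → C (G ⧸ N₁) → C (G ⧸ N₂) → C G

/-- For normal subgroups `K`, `H` of `G`: `H/K` is a chief factor of `G`. -/
def IsChiefFactor {G : Type} [Group G] (K H : Subgroup G) : Prop :=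
  K < H ∧ ∀ N : Subgroup G, N.Normal → K ≤ N → N ≤ H → N = K ∨ N = H

/-- The centralizer in `G` of the factor `H/K`: all `g` with `g h g⁻¹ ≡ h` modulo `K` for every
`h` in `H`. -/
def factorCentralizer {G : Type} [Group G] (K H : Subgroup G) [hK : K.Normal] [hH : H.Normal] :
    Subgroup G where
  carrier := {g | ∀ h ∈ H, g * h * g⁻¹ * h⁻¹ ∈ K}
  one_mem' := (Pool.Agent.Helper907.Loc.cenF K H).one_mem'
  mul_mem' := (Pool.Agent.Helper907.Loc.cenF K H).mul_mem'
  inv_mem' := (Pool.Agent.Helper907.Loc.cenF K H).inv_mem'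

instance {G : Type} [Group G] (K H : Subgroup G) [hK : K.Normal] [hH : H.Normal] :
    (factorCentralizer K H).Normal :=
  inferInstanceAs (Pool.Agent.Helper907.Loc.cenF K H).Normal

/-- Local formations: there is a function `f` assigning to each prime a formation or the empty
class such that `G` is in the class exactly when `G / C_G(H/K)` is in `f p` for each chief factor
`H/K` of `G` and each prime `p` dividing its order. -/
def IsLocal (C : GroupClass) : Prop :=
  ∃ f : ℕ → GroupClass,
    (∀ p : ℕ, p.Prime → IsFormation (f p) ∨ ∀ (G : Type) [Group G], ¬ f p G) ∧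
    ∀ (G : Type) [Group G] [Finite G], C G ↔
      ∀ (K H : Subgroup G) [K.Normal] [H.Normal], IsChiefFactor K H →
        ∀ p : ℕ, p.Prime → p ∣ K.relIndex H → f p (G ⧸ factorCentralizer K H)

/-- The residual of `G`: the intersection of all normal subgroups with quotient in the class (for a
finite group and a formation it is the smallest of them). -/
def residual (C : GroupClass) (G : Type) [Group G] : Subgroup G :=
  sInf {N : Subgroup G | ∃ _ : N.Normal, C (G ⧸ N)}

/-- One step of a chain: `L` is a maximal subgroup of `K` and contains the residual of `K`. -/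
def Step (C : GroupClass) {G : Type} [Group G] (K L : Subgroup G) : Prop :=
  L ⋖ K ∧ (residual C K).map K.subtype ≤ L

/-- `H` is subnormal in `G` with respect to the class: there is a finite chain of steps from `G`
down to `H`. -/
def IsFSubnormal (C : GroupClass) {G : Type} [Group G] (H : Subgroup G) : Prop :=
  Relation.ReflTransGen (Step C) ⊤ H

/-- Property (L): in every finite group the subnormal subgroups with respect to the class form a
sublattice of the subgroup lattice. -/
def PropertyL (C : GroupClass) : Prop :=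
  ∀ (G : Type) [Group G] [Finite G] (A B : Subgroup G), IsFSubnormal C A → IsFSubnormal C B →
    IsFSubnormal C (A ⊓ B) ∧ IsFSubnormal C (A ⊔ B)

/-- The class contains every subgroup of each of its members. -/
def IsSubgroupClosed (C : GroupClass) : Prop :=
  ∀ (G : Type) [Group G], C G → ∀ H : Subgroup G, C H

section

open Pool.Agent.Helper907.Lat Pool.Agent.Helper907.Loc

variable {C : GroupClass}

lemma IsFormation.surj (hC : IsFormation C) {G H : Type} [Group G] [Group H] (f : G →* H)
    (hf : Function.Surjective f) (h : C G) : C H :=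
  hC.iso _ _ (hC.quotient G f.ker h) ⟨QuotientGroup.quotientKerEquivOfSurjective f hf⟩

lemma IsFormation.ofker (hC : IsFormation C) {G H : Type} [Group G] [Group H] (f : G →* H)
    (hf : Function.Surjective f) (h : C H) : C (G ⧸ f.ker) :=
  hC.iso _ _ h ⟨(QuotientGroup.quotientKerEquivOfSurjective f hf).symm⟩

lemma IsFormation.unit (hC : IsFormation C) : C Unit := by
  obtain ⟨G, hG, h⟩ := hC.nonempty
  exact hC.surj (1 : G →* Unit) (fun x => ⟨1, rfl⟩) h

lemma IsFormation.ofle (hC : IsFormation C) {G : Type} [Group G] (N₁ N₂ : Subgroup G) [N₁.Normal]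
    [N₂.Normal] (h : N₁ ≤ N₂) (h1 : C (G ⧸ N₁)) : C (G ⧸ N₂) :=
  hC.surj (QuotientGroup.map N₁ N₂ (MonoidHom.id G) h)
    (by
      intro x
      obtain ⟨g, rfl⟩ := QuotientGroup.mk_surjective x
      exact ⟨QuotientGroup.mk g, rfl⟩) h1

lemma IsFormation.inf (hC : IsFormation C) (G : Type) [Group G] [Finite G] (N₁ N₂ : Subgroup G)
    [N₁.Normal] [N₂.Normal] (h1 : C (G ⧸ N₁)) (h2 : C (G ⧸ N₂)) : C (G ⧸ (N₁ ⊓ N₂)) := by
  let f₁ : G ⧸ (N₁ ⊓ N₂) →* G ⧸ N₁ := QuotientGroup.map _ N₁ (MonoidHom.id G) inf_le_left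
  let f₂ : G ⧸ (N₁ ⊓ N₂) →* G ⧸ N₂ := QuotientGroup.map _ N₂ (MonoidHom.id G) inf_le_right
  have hf₁ : Function.Surjective f₁ := by
    intro x
    obtain ⟨g, rfl⟩ := QuotientGroup.mk_surjective x
    exact ⟨QuotientGroup.mk g, rfl⟩
  have hf₂ : Function.Surjective f₂ := by
    intro x
    obtain ⟨g, rfl⟩ := QuotientGroup.mk_surjective x
    exact ⟨QuotientGroup.mk g, rfl⟩
  refine hC.subdirect _ f₁.ker f₂.ker ?_ (hC.ofker f₁ hf₁ h1) (hC.ofker f₂ hf₂ h2)
  rw [eq_bot_iff]
  rintro x ⟨hx1, hx2⟩
  obtain ⟨g, rfl⟩ := QuotientGroup.mk_surjective x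
  have h3 : (QuotientGroup.mk g : G ⧸ N₁) = 1 := hx1
  have h4 : (QuotientGroup.mk g : G ⧸ N₂) = 1 := hx2
  exact (QuotientGroup.eq_one_iff g).mpr
    ⟨(QuotientGroup.eq_one_iff g).mp h3, (QuotientGroup.eq_one_iff g).mp h4⟩

/-- existence of the residual -/
lemma IsFormation.exists_res (hC : IsFormation C) (G : Type) [Group G] [Finite G] :
    ∃ R : Subgroup G, ∃ _ : R.Normal, C (G ⧸ R) ∧
      ∀ (N : Subgroup G) [N.Normal], C (G ⧸ N) → R ≤ N := by
  classical
  have hne : ({N : Subgroup G | ∃ _ : N.Normal, C (G ⧸ N)}).Nonempty := by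
    refine ⟨⊤, inferInstance, ?_⟩
    refine hC.iso Unit _ hC.unit ⟨?_⟩
    haveI : Subsingleton (G ⧸ (⊤ : Subgroup G)) := QuotientGroup.subsingleton_quotient_top
    exact { toFun := fun _ => 1, invFun := fun _ => (), left_inv := fun _ => rfl,
            right_inv := fun x => Subsingleton.elim _ _, map_mul' := fun _ _ => by simp }
  obtain ⟨R, ⟨hR, hRF⟩, hmin⟩ := (Set.toFinite _).exists_minimal hne
  refine ⟨R, hR, hRF, ?_⟩
  intro N hN hNF
  have h1 : R ⊓ N ∈ {N : Subgroup G | ∃ _ : N.Normal, C (G ⧸ N)} :=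
    ⟨inferInstance, hC.inf G R N hRF hNF⟩
  exact le_inf_iff.mp (hmin h1 inf_le_left) |>.2

lemma chief_iff {G : Type} [Group G] (K H : Subgroup G) : IsChiefFactor K H ↔ IsChief K H := Iff.rfl

lemma cen_eq {G : Type} [Group G] (K H : Subgroup G) [K.Normal] [H.Normal] :
    factorCentralizer K H = cenF K H := rfl

/-- a minimal normal subgroup inside the Frattini subgroup is elementary abelian -/
lemma minimal_frattini {G : Type} [Group G] [Finite G] (N : Subgroup G) [hN : N.Normal]
    (hNF : N ≤ frattini G) (hNne : N ≠ ⊥)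
    (hmin : ∀ N' : Subgroup G, N'.Normal → N' ≤ N → N' = ⊥ ∨ N' = N) :
    (∀ x ∈ N, ∀ y ∈ N, x * y = y * x) ∧ ∃ p : ℕ, p.Prime ∧ ∀ x ∈ N, x ^ p = 1 := by
  classical
  have hNnt : Nontrivial N := (Subgroup.nontrivial_iff_ne_bot N).mpr hNne
  have hnil : Group.IsNilpotent N := by
    have h1 : Group.IsNilpotent (frattini G) := frattini_nilpotent
    have h2 : Group.IsNilpotent (N.subgroupOf (frattini G)) := inferInstance
    exact Group.nilpotent_of_mulEquiv (Subgroup.subgroupOfEquivOfLe hNF)
  have hab : ∀ x ∈ N, ∀ y ∈ N, x * y = y * x := by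
    have hn : (N ⊓ Subgroup.centralizer (N : Set G)).Normal := inferInstance
    have h2 : N ⊓ Subgroup.centralizer (N : Set G) = N := by
      rcases hmin _ hn inf_le_left with h | h
      · exfalso
        have h1 : Subgroup.center N ≠ ⊥ := Group.IsNilpotent.center_ne_bot N
        apply h1
        rw [eq_bot_iff]
        intro z hz
        have h3 : (z : G) ∈ N ⊓ Subgroup.centralizer (N : Set G) := by
          refine Subgroup.mem_inf.mpr ⟨z.2, ?_⟩
          rw [Subgroup.mem_centralizer_iff]
          intro d hd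
          exact congrArg Subtype.val (Subgroup.mem_center_iff.mp hz ⟨d, hd⟩)
        rw [h, Subgroup.mem_bot] at h3
        exact Subtype.ext h3
      · exact h
    intro a ha b hb
    rw [← h2] at ha
    exact (Subgroup.mem_centralizer_iff.mp ha.2 b hb).symm
  refine ⟨hab, ?_⟩
  obtain ⟨p, hpp, hpN⟩ := Nat.exists_prime_and_dvd
    (Finite.one_lt_card_iff_nontrivial.mpr hNnt).ne'
  have hp : Fact p.Prime := ⟨hpp⟩
  refine ⟨p, hpp, ?_⟩
  have hch : IsChief (⊥ : Subgroup G) N :=
    ⟨bot_lt_iff_ne_bot.mpr hNne, fun K hK _ hKN => hmin K hK hKN⟩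
  intro x hx
  have h1 := chief_pow p ⊥ N hch (by rw [Subgroup.relIndex_bot_left]; exact hpN)
    (fun x hx y hy => by
      rw [Subgroup.mem_bot, hab x hx y hy]
      group) x hx
  exact Subgroup.mem_bot.mp h1

/-- Local formations are saturated. -/
lemma local_saturated (hC : IsFormation C) (f : ℕ → GroupClass)
    (hf : ∀ p : ℕ, p.Prime → IsFormation (f p) ∨ ∀ (G : Type) [Group G], ¬ f p G)
    (hloc : ∀ (G : Type) [Group G] [Finite G], C G ↔
      ∀ (K H : Subgroup G) [K.Normal] [H.Normal], IsChiefFactor K H →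
        ∀ p : ℕ, p.Prime → p ∣ K.relIndex H → f p (G ⧸ factorCentralizer K H)) :
    ∀ (n : ℕ) (G : Type) [Group G] [Finite G], Nat.card G = n → C (G ⧸ frattini G) → C G := by
  classical
  intro n
  induction n using Nat.strong_induction_on with
  | _ n ih =>
  intro G _ _ hcard hG
  by_cases hΦ : frattini G = ⊥
  · have h1 : ∀ (N : Subgroup G) [N.Normal], N = ⊥ → C (G ⧸ N) → C G := by
      intro N _ hN h
      subst hN
      exact hC.iso _ _ h ⟨QuotientGroup.quotientBot⟩
    exact h1 _ hΦ hG
  -- a minimal normal subgroup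
  have hne : ({N : Subgroup G | N.Normal ∧ N ≠ ⊥ ∧ N ≤ frattini G}).Nonempty :=
    ⟨frattini G, inferInstance, hΦ, le_rfl⟩
  obtain ⟨N, ⟨hN, hNne, hNF⟩, hNmin⟩ := (Set.toFinite _).exists_minimal hne
  have hmin : ∀ N' : Subgroup G, N'.Normal → N' ≤ N → N' = ⊥ ∨ N' = N := by
    intro N' hN' hle
    by_cases hb : N' = ⊥
    · left; exact hb
    · right
      exact le_antisymm hle (hNmin ⟨hN', hb, hle.trans hNF⟩ hle)
  obtain ⟨hab, p, hpp, hexp⟩ := minimal_frattini N hNF hNne hmin
  have hp : Fact p.Prime := ⟨hpp⟩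
  have hNnt : Nontrivial N := (Subgroup.nontrivial_iff_ne_bot N).mpr hNne
  have hNpg : IsPGroup p N := by
    rintro ⟨x, hx⟩
    exact ⟨1, Subtype.ext (by rw [pow_one]; exact hexp x hx)⟩
  -- the quotient is in the class
  have hGN : C (G ⧸ N) := by
    have hlt : Nat.card (G ⧸ N) < n := by
      rw [← hcard, ← Subgroup.card_mul_index N, ← Subgroup.index_eq_card]
      have h1 : 1 < Nat.card N := Finite.one_lt_card_iff_nontrivial.mpr hNnt
      have h2 : 0 < N.index := Nat.pos_of_ne_zero Subgroup.index_ne_zero_of_finite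
      nlinarith
    refine ih _ hlt (G ⧸ N) rfl ?_
    refine hC.surj (G := G ⧸ frattini G)
      (QuotientGroup.lift (frattini G) ((QuotientGroup.mk' (frattini (G ⧸ N))).comp
        (QuotientGroup.mk' N)) ?_) ?_ hG
    · intro x hx
      exact (QuotientGroup.eq_one_iff _).mpr
        (frattini_le_comap_frattini_of_surjective (QuotientGroup.mk'_surjective N) hx)
    · intro x
      obtain ⟨y, rfl⟩ := QuotientGroup.mk_surjective x
      obtain ⟨z, rfl⟩ := QuotientGroup.mk_surjective y
      exact ⟨QuotientGroup.mk z, rfl⟩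
  have hGN' := (hloc (G ⧸ N)).mp hGN
  -- factors above `N`
  let π : G →* G ⧸ N := QuotientGroup.mk' N
  have hπ : Function.Surjective π := QuotientGroup.mk'_surjective N
  have hπker : π.ker = N := QuotientGroup.ker_mk' N
  have habove : ∀ (K H : Subgroup G) [K.Normal] [H.Normal], IsChief K H → K ⊔ N ≠ H ⊔ N →
      ∀ q : ℕ, q.Prime → q ∣ K.relIndex H → f q (G ⧸ cenF K H) := by
    intro K H hK hH hch hKH q hq hdvd
    have hfq : IsFormation (f q) ∨ ∀ (G : Type) [Group G], ¬ f q G := hf q hq
    have hK' : (K.map π).Normal := Subgroup.Normal.map hK π hπ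
    have hH' : (H.map π).Normal := Subgroup.Normal.map hH π hπ
    have hinf : (K ⊔ N) ⊓ H = K := by
      have hn : ((K ⊔ N) ⊓ H).Normal := inferInstance
      rcases hch.2 _ hn (le_inf le_sup_left hch.1.le) inf_le_right with h | h
      · exact h
      · exfalso
        apply hKH
        apply le_antisymm
        · exact sup_le_sup_right hch.1.le N
        · exact sup_le (inf_eq_right.mp h) le_sup_right
    have hch' : IsChief (K.map π) (H.map π) := by
      refine ⟨?_, ?_⟩
      · refine lt_of_le_of_ne (Subgroup.map_mono hch.1.le) ?_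
        intro heq
        apply hKH
        have h1 := congrArg (Subgroup.comap π) heq
        rw [Subgroup.comap_map_eq, Subgroup.comap_map_eq, hπker] at h1
        exact h1
      · intro M hM hKM hMH
        have h1 : K ⊔ N ≤ M.comap π := by
          have := Subgroup.comap_mono (f := π) hKM
          rwa [Subgroup.comap_map_eq, hπker] at this
        have h2 : M.comap π ≤ H ⊔ N := by
          have := Subgroup.comap_mono (f := π) hMH
          rwa [Subgroup.comap_map_eq, hπker] at this
        have h3 : (M.comap π).map π = M := Subgroup.map_comap_eq_self_of_surjective hπ M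
        have hMn : (M.comap π).Normal := hM.comap π
        rcases hch.2 (M.comap π ⊓ H) inferInstance (le_inf (le_sup_left.trans h1) hch.1.le)
          inf_le_right with h | h
        · left
          have h4 : M.comap π ≤ K ⊔ N := by
            intro x hx
            have h5 : x ∈ H ⊔ N := h2 hx
            rw [Subgroup.mem_sup_of_normal_right] at h5
            obtain ⟨y, hy, z, hz, rfl⟩ := h5
            have h6 : z ∈ M.comap π := h1 ((le_sup_right : N ≤ K ⊔ N) hz)
            have h7 : y ∈ M.comap π := by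
              have := (M.comap π).mul_mem hx ((M.comap π).inv_mem h6)
              rwa [mul_inv_cancel_right] at this
            have h8 : y ∈ K := by
              rw [← h]; exact ⟨h7, hy⟩
            exact (K ⊔ N).mul_mem ((le_sup_left : K ≤ K ⊔ N) h8) ((le_sup_right : N ≤ K ⊔ N) hz)
          have h9 : M.comap π = K ⊔ N := le_antisymm h4 h1
          rw [← h3, h9, Subgroup.map_sup]
          have h10 : N.map π = ⊥ := by
            rw [Subgroup.map_eq_bot_iff, hπker]
          rw [h10, sup_bot_eq]
        · right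
          have h4 : H ≤ M.comap π := inf_eq_right.mp h
          apply le_antisymm hMH
          rw [← h3]
          exact Subgroup.map_mono h4
    have hidx : q ∣ (K.map π).relIndex (H.map π) := by
      rw [Subgroup.relIndex_map_map, hπker]
      have h1 : (K ⊔ N).relIndex (H ⊔ N) = K.relIndex H := by
        have h2 : H ⊔ N = (K ⊔ N) ⊔ H := by
          apply le_antisymm
          · exact sup_le le_sup_right (le_sup_right.trans le_sup_left)
          · exact sup_le (sup_le_sup_right hch.1.le N) le_sup_left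
        rw [h2, Subgroup.relIndex_sup_left, ← Subgroup.inf_relIndex_right (K ⊔ N) H, hinf]
      rw [h1]
      exact hdvd
    have h1 := hGN' (K.map π) (H.map π) hch' q hq hidx
    rcases hfq with hfq | hfq
    swap
    · exact absurd h1 (hfq _)
    let φ : G →* (G ⧸ N) ⧸ factorCentralizer (K.map π) (H.map π) :=
      (QuotientGroup.mk' (factorCentralizer (K.map π) (H.map π))).comp π
    have hφ : Function.Surjective φ := (QuotientGroup.mk'_surjective _).comp hπ
    refine hfq.ofle φ.ker (cenF K H) ?_ (hfq.ofker φ hφ h1)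
    intro g hg h hh
    have h2 : π g ∈ factorCentralizer (K.map π) (H.map π) := (QuotientGroup.eq_one_iff _).mp hg
    have h3 := h2 (π h) ⟨h, hh, rfl⟩
    rw [← map_inv, ← map_inv, ← map_mul, ← map_mul, ← map_mul] at h3
    have h4 : g * h * g⁻¹ * h⁻¹ ∈ K ⊔ N := by
      have : g * h * g⁻¹ * h⁻¹ ∈ (K.map π).comap π := h3
      rwa [Subgroup.comap_map_eq, hπker] at this
    have h5 : g * h * g⁻¹ * h⁻¹ ∈ H := H.mul_mem (hH.conj_mem h hh g) (H.inv_mem hh)
    rw [← hinf]
    exact ⟨h4, h5⟩
  -- the index of `N` is divisible by `p`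
  have hpidx : p ∣ N.index := by
    by_contra hnd
    obtain ⟨j, hj⟩ := (IsPGroup.iff_card (p := p)).mp hNpg
    have hcop : Nat.Coprime (Nat.card N) N.index := by
      rw [hj]
      exact Nat.Coprime.pow_left j ((Nat.Prime.coprime_iff_not_dvd hpp).mpr hnd)
    obtain ⟨L, hL⟩ := Subgroup.exists_right_complement'_of_coprime hcop
    have h1 : L ⊔ frattini G = ⊤ := by
      rw [eq_top_iff, ← hL.sup_eq_top]
      exact sup_le (hNF.trans le_sup_right) le_sup_left
    have h2 : L = ⊤ := frattini_nongenerating h1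
    apply hNne
    have h3 := hL.disjoint
    rw [h2] at h3
    exact disjoint_top.mp h3
  -- a chief factor of order divisible by `p` above `N`
  obtain ⟨K₀, H₀, hK₀n, hH₀n, hNK₀, hch₀, hdvd₀⟩ : ∃ K H : Subgroup G, ∃ _ : K.Normal,
      ∃ _ : H.Normal, N ≤ K ∧ IsChief K H ∧ p ∣ K.relIndex H := by
    have hne2 : ({K : Subgroup G | K.Normal ∧ N ≤ K ∧ p ∣ K.index}).Nonempty :=
      ⟨N, hN, le_rfl, hpidx⟩
    obtain ⟨K, ⟨hK, hNK, hKp⟩, hKmax⟩ := (Set.toFinite _).exists_maximal hne2
    have hKtop : K < ⊤ := by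
      rw [lt_top_iff_ne_top]
      intro h
      rw [h, Subgroup.index_top] at hKp
      exact hpp.one_lt.ne' (Nat.dvd_one.mp hKp)
    obtain ⟨H, hH, -, hch⟩ := exists_chief K ⊤ hKtop
    refine ⟨K, H, hK, hH, hNK, hch, ?_⟩
    by_contra hnd
    have h1 : p ∣ H.index := by
      rw [← Subgroup.relIndex_mul_index hch.1.le, hpp.dvd_mul] at hKp
      rcases hKp with h | h
      · exact absurd h hnd
      · exact h
    exact absurd (hKmax ⟨hH, hNK.trans hch.1.le, h1⟩ hch.1.le) (not_le_of_gt hch.1)
  have hsupne : ∀ K H : Subgroup G, N ≤ K → IsChief K H → K ⊔ N ≠ H ⊔ N := by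
    intro K H hNK hch h
    rw [sup_eq_left.mpr hNK, sup_eq_left.mpr (hNK.trans hch.1.le)] at h
    exact hch.1.ne h
  have hfp : IsFormation (f p) := by
    rcases hf p hpp with h | h
    · exact h
    · exact absurd (habove K₀ H₀ hch₀ (hsupne K₀ H₀ hNK₀ hch₀) p hpp hdvd₀) (h _)
  obtain ⟨R, hR, hRf, hRmin⟩ := hfp.exists_res G
  -- the intersection of the centralizers
  let A : Subgroup G := R ⊔ N
  have hAf : f p (G ⧸ A) := hfp.ofle R A le_sup_left hRf
  have hAcen : ∀ (K H : Subgroup G) [K.Normal] [H.Normal], N ≤ K → H ≤ A → IsChief K H →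
      p ∣ K.relIndex H → A ≤ cenF K H := by
    intro K H hK hH hNK _ hch hdvd
    refine sup_le (hRmin _ (habove K H hch (hsupne K H hNK hch) p hpp hdvd)) ?_
    intro x hx h hh
    have h1 : h * x⁻¹ * h⁻¹ ∈ N := hN.conj_mem _ (N.inv_mem hx) h
    have h2 : x * h * x⁻¹ * h⁻¹ = x * (h * x⁻¹ * h⁻¹) := by group
    rw [h2]
    exact hNK (N.mul_mem hx h1)
  have hcentral : A ≤ cenF ⊥ N :=
    frat_central p N hNF hmin hNne hab hexp A le_sup_right hAcen
  have hfN : f p (G ⧸ cenF ⊥ N) := hfp.ofle A _ hcentral hAf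
  -- conclusion
  rw [hloc G]
  intro K H hK hH hch q hq hdvd
  by_cases hKH : K ⊔ N = H ⊔ N
  · have hKN : K ⊓ N = ⊥ := by
      rcases hmin (K ⊓ N) inferInstance inf_le_right with h | h
      · exact h
      · exfalso
        have h1 : N ≤ K := inf_eq_right.mp h
        exact hsupne K H h1 hch hKH
    have hHeq : H = K ⊔ N := by
      have h1 : H ≤ K ⊔ N := by rw [hKH]; exact le_sup_left
      rcases hmin (H ⊓ N) inferInstance inf_le_right with h | h
      · exfalso
        apply hch.1.ne
        apply le_antisymm hch.1.le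
        intro x hx
        have h2 := h1 hx
        rw [Subgroup.mem_sup_of_normal_right] at h2
        obtain ⟨y, hy, z, hz, rfl⟩ := h2
        have h3 : z ∈ H ⊓ N := by
          refine ⟨?_, hz⟩
          have := H.mul_mem (H.inv_mem (hch.1.le hy)) hx
          rwa [inv_mul_cancel_left] at this
        rw [h, Subgroup.mem_bot] at h3
        rw [h3, mul_one]
        exact hy
      · have h2 : N ≤ H := inf_eq_right.mp h
        exact le_antisymm h1 (sup_le hch.1.le h2)
    have hidx : K.relIndex H = Nat.card N := by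
      rw [hHeq, Subgroup.relIndex_sup_left, ← Subgroup.inf_relIndex_right K N, hKN,
        Subgroup.relIndex_bot_left]
    have hqp : q = p := by
      obtain ⟨j, hj⟩ := (IsPGroup.iff_card (p := p)).mp hNpg
      rw [hidx, hj] at hdvd
      exact (Nat.prime_dvd_prime_iff_eq hq hpp).mp (hq.dvd_of_dvd_pow hdvd)
    subst hqp
    refine hfp.ofle (cenF ⊥ N) (factorCentralizer K H) ?_ hfN
    intro g hg h hh
    have hh' : h ∈ K ⊔ N := by rw [← hHeq]; exact hh
    rw [Subgroup.mem_sup_of_normal_right] at hh'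
    obtain ⟨y, hy, z, hz, rfl⟩ := hh'
    have h1 : g * z * g⁻¹ * z⁻¹ = 1 := Subgroup.mem_bot.mp (hg z hz)
    have h2 : g * z * g⁻¹ = z := by rwa [mul_inv_eq_one] at h1
    have h3 : g * (y * z) * g⁻¹ * (y * z)⁻¹ = (g * y * g⁻¹) * (g * z * g⁻¹) * z⁻¹ * y⁻¹ := by group
    rw [h3, h2, mul_inv_cancel_right]
    exact K.mul_mem (hK.conj_mem y hy g) (K.inv_mem hy)
  · exact habove K H hch hKH q hq hdvd

/-- The residual is contained in every normal subgroup with quotient in the class, and its own
quotient is in the class. -/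
lemma residual_mem (hC : IsFormation C) (G : Type) [Group G] [Finite G] :
    ∃ _ : (residual C G).Normal, C (G ⧸ residual C G) := by
  obtain ⟨R, hR, hRC, hmin⟩ := hC.exists_res G
  have h : residual C G = R := by
    apply le_antisymm
    · exact sInf_le ⟨hR, hRC⟩
    · exact le_sInf (fun N ⟨hN, hNC⟩ => hmin N hNC)
  rw [h]
  exact ⟨hR, hRC⟩

lemma fsub_TT (hC : IsFormation C) (hF : Fm C) {G : Type} [Group G] [Finite G] {H : Subgroup G}
    (h : IsFSubnormal C H) : H ∈ TT C G := by
  unfold IsFSubnormal at h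
  induction h with
  | refl => exact TT_top
  | @tail K L _ hstep ih =>
    obtain ⟨hcov, hle⟩ := hstep
    obtain ⟨hn, hq⟩ := residual_mem hC K
    refine TT_step hF ih hcov.lt ?_ ?_
    · intro M h1 h2
      rcases hcov.eq_or_eq h1 h2 with h | h
      · exact Or.inl h
      · exact Or.inr h
    · refine ⟨K ⧸ residual C K, inferInstance, QuotientGroup.mk' (residual C K),
        QuotientGroup.mk'_surjective (residual C K), hq, ?_⟩
      intro x hx
      exact hle ⟨x, (QuotientGroup.eq_one_iff x).mp hx, rfl⟩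

lemma TT_fsub (hC : IsFormation C) (hF : Fm C) {G : Type} [Group G] [Finite G] {H : Subgroup G}
    (h : H ∈ TT C G) : IsFSubnormal C H := by
  refine TT_ind hF (fun K => IsFSubnormal C K) Relation.ReflTransGen.refl ?_ h
  rintro K L hK hlt hcov ⟨Q, hQ, f, hf, hFQ, hker⟩
  refine Relation.ReflTransGen.tail hK ⟨?_, ?_⟩
  · refine ⟨hlt, ?_⟩
    intro M h1 h2
    rcases hcov M h1.le h2.le with h | h
    · exact h1.ne h.symm
    · exact h2.ne h
  · rintro x ⟨y, hy, rfl⟩
    have h1 : residual C K ≤ f.ker := sInf_le ⟨inferInstance, hC.ofker f hf hFQ⟩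
    exact hker y (h1 hy)

end

/-- Every local formation with property (L) is closed under subgroups; in other words, no local
formation that is not subgroup-closed has property (L). -/
theorem result (C : GroupClass) (hC : IsFormation C) (hloc : IsLocal C) (hL : PropertyL C) :
    IsSubgroupClosed C := by
  obtain ⟨f, hf, hlocf⟩ := hloc
  have hF : Pool.Agent.Helper907.Lat.Fm C :=
    { iso := fun G H _ _ h hG => hC.iso G H hG h
      unit := hC.unit
      quot := fun G _ _ N _ h => hC.quotient G N h
      inf := fun G _ _ N₁ N₂ _ _ h1 h2 => hC.inf G N₁ N₂ h1 h2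
      frat := fun G _ _ h => local_saturated hC f hf hlocf (Nat.card G) G rfl h }
  intro G _ hG H
  have hfin : Finite G := hC.finite G hG
  exact Pool.Agent.Helper907.Lat.hereditary hF
    (fun G _ _ A hA B hB => fsub_TT hC hF (hL G A B (TT_fsub hC hF hA) (TT_fsub hC hF hB)).2)
    (Nat.card G) G rfl hG H

end Pool.Agent.Results.MP_9bfc50_al.SubgroupClosed
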